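import Mathlib
import Pool.Agent.Y671.WD.Abs
import Pool.Agent.Q191.WX.Defs
import Pool.Agent.Q191.WX.Main

/-!
Permanence of the weak relative Dixmier property: an irreducible inclusion of factors `N ⊆ M` has
the weak relative Dixmier property if `N` is obtained from the scalars by iterated amenable
extensions, state preserving extensions and directed unions, where the states are faithful normal
(vector) states of `M`, or are states of `N` composed with a conditional expectation from `M` to `N`.
-/

set_option autoImplicit false
open Pool.Agent.Y671.WD Pool.Agent.Q191.WX

namespace Pool.Agent.Results.MP_7e3bdd_an.AmenableExtensions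

theorem result (H : Type) [NormedAddCommGroup H] [InnerProductSpace ℂ H] [CompleteSpace H]
    (N M : VonNeumannAlgebra H) (hNM : IrredFactors N M) :
    (Ext (SepVec M) M N → WRDP N M) ∧
    ∀ E : (H →L[ℂ] H) → (H →L[ℂ] H), Bimod N M E → Ext (InvVec M E) N N → WRDP N M :=
  wrdp N M hNM

end Pool.Agent.Results.MP_7e3bdd_an.AmenableExtensions
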