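import Mathlib
import Pool.Agent.Y671.WD.Abs
import Pool.Agent.Q191.WT.Stmts
import Pool.Agent.Q191.WT.Final

/-!
The weak relative Dixmier property passes to tensor products: if `N₁ ⊆ M₁` and `N₂ ⊆ M₂` are
irreducible inclusions of factors with the weak relative Dixmier property, then `N₁ ⊗ N₂ ⊆ M₁ ⊗ M₂` is
an irreducible inclusion of factors with the weak relative Dixmier property.
-/

set_option autoImplicit false
open Pool.Agent.Y671.WD Pool.Agent.Q191.WT

namespace Pool.Agent.Results.MP_7e3bdd_an.TensorProducts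

theorem result (H₁ H₂ H : Type) [NormedAddCommGroup H₁] [InnerProductSpace ℂ H₁]
    [CompleteSpace H₁] [NormedAddCommGroup H₂] [InnerProductSpace ℂ H₂] [CompleteSpace H₂]
    [NormedAddCommGroup H] [InnerProductSpace ℂ H] [CompleteSpace H] [Nontrivial H₁]
    (T : H₁ → H₂ → H) (hT : IsTP T) (N₁ M₁ : VonNeumannAlgebra H₁) (N₂ M₂ : VonNeumannAlgebra H₂)
    (N M : VonNeumannAlgebra H) (hN : IsTensor T N₁ N₂ N) (hM : IsTensor T M₁ M₂ M)
    (h₁ : IrredFactors N₁ M₁) (h₂ : IrredFactors N₂ M₂) (hw₁ : WRDP N₁ M₁) (hw₂ : WRDP N₂ M₂) :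
    IrredFactors N M ∧ WRDP N M :=
  final H₁ H₂ H T hT N₁ M₁ N₂ M₂ N M hN hM h₁ h₂ hw₁ hw₂

end Pool.Agent.Results.MP_7e3bdd_an.TensorProducts
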